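import Pool.Agent.Lib.MP_bc94b4_co.Ac.Main

/-!
There is an absolute constant `c > 0` such that, for every `d ≥ 2`, every finite subset of `ℝ^d`
in which all angles determined by three distinct points are acute has at most (1 - c) 2 ^ d
points.
-/

set_option autoImplicit false

namespace Pool.Agent.Results.MP_bc94b4_co.AcuteConstant

theorem result : ∃ c : ℝ, 0 < c ∧ ∀ d : ℕ, 2 ≤ d → ∀ S : Finset (EuclideanSpace ℝ (Fin d)),
    (∀ x ∈ S, ∀ y ∈ S, ∀ z ∈ S, x ≠ y → y ≠ z → x ≠ z →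
      EuclideanGeometry.angle x y z < Real.pi / 2) →
    (S.card : ℝ) ≤ (1 - c) * 2 ^ d := by
  obtain ⟨c, hc, h⟩ := Pool.Agent.Lib.MP_bc94b4_co.Ac.acute_bound
  refine ⟨c, hc, fun d hd S hS => h d hd S fun a ha b hb e he hab hae hbe => ?_⟩
  have h1 := hS b hb a ha e he hab.symm hae hbe
  rw [EuclideanGeometry.angle, InnerProductGeometry.angle, Real.arccos_lt_pi_div_two] at h1
  exact (div_pos_iff_of_pos_right (mul_pos (norm_pos_iff.2 (sub_ne_zero.2 hab.symm))
    (norm_pos_iff.2 (sub_ne_zero.2 hae.symm)))).1 h1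

end Pool.Agent.Results.MP_bc94b4_co.AcuteConstant
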