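import Pool.Agent.Lib.MP_bc94b4_co.Ch.Fin
import Pool.Agent.Lib.MP_bc94b4_co.Ch.Own

/-!
In dimension four the largest set with acute angles only has nine points, while there is a
0-antipodal 4-polytope with ten vertices.
-/

set_option autoImplicit false

namespace Pool.Agent.Results.MP_bc94b4_co.AcuteFour

/-- every angle determined by three distinct points of `S` is less than a right angle -/
def AcuteSet {E : Type} [NormedAddCommGroup E] [InnerProductSpace ℝ E] (S : Finset E) : Prop :=
  ∀ a ∈ S, ∀ b ∈ S, ∀ c ∈ S, a ≠ b → b ≠ c → a ≠ c → EuclideanGeometry.angle a b c < Real.pi / 2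

/-- `x`, `y` are 0-antipodal in `K`: some direction has its maximum over `K` only at `x` and its
minimum over `K` only at `y` -/
def ZeroAntipodal {E : Type} [NormedAddCommGroup E] [InnerProductSpace ℝ E] (K : Set E)
    (x y : E) : Prop :=
  ∃ u : E, ∀ z ∈ K, (z ≠ x → inner ℝ u z < inner ℝ u x) ∧ (z ≠ y → inner ℝ u y < inner ℝ u z)

/-- `S` is the vertex set of a full-dimensional polytope in which every two vertices are
0-antipodal -/
def ZeroAntipodalVertices {E : Type} [NormedAddCommGroup E] [InnerProductSpace ℝ E]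
    (S : Finset E) : Prop :=
  affineSpan ℝ (S : Set E) = ⊤ ∧ (convexHull ℝ (S : Set E)).extremePoints ℝ = S ∧
    ∀ x ∈ S, ∀ y ∈ S, x ≠ y → ZeroAntipodal (convexHull ℝ (S : Set E)) x y

theorem result :
    IsGreatest {n : ℕ | ∃ S : Finset (EuclideanSpace ℝ (Fin 4)), S.card = n ∧ AcuteSet S} 9 ∧
    ∃ S : Finset (EuclideanSpace ℝ (Fin 4)), S.card = 10 ∧ ZeroAntipodalVertices S :=
  ⟨AcuteCh.own_max AcuteCh.no_ten, AcuteCh.own_ten⟩

end Pool.Agent.Results.MP_bc94b4_co.AcuteFour
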