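import Pool.Agent.Lib.MP_bc94b4_co.Main

/-!
For every `d ≥ 4` there is a set of `2 ^ (d - 1) + 2` points of `ℝ^d` in which every pair `x, y`
has a direction maximised over the set only at `x` and minimised only at `y`
(the vertex set of a 0-antipodal polytope).
-/

set_option autoImplicit false

namespace Pool.Agent.Results.MP_bc94b4_co.StrictAntipodal

theorem result : ∀ d : ℕ, 4 ≤ d →
    ∃ S : Finset (EuclideanSpace ℝ (Fin d)), S.card = 2 ^ (d - 1) + 2 ∧
      ∀ x ∈ S, ∀ y ∈ S, x ≠ y →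
        ∃ u : EuclideanSpace ℝ (Fin d), ∀ z ∈ S,
          (z ≠ x → inner ℝ u z < inner ℝ u x) ∧ (z ≠ y → inner ℝ u y < inner ℝ u z) := by
  intro d hd
  obtain ⟨n, rfl⟩ : ∃ n, d = n + 4 := ⟨d - 4, by omega⟩
  obtain ⟨Q, hQ⟩ := Pool.Agent.Bc94b4.exists_family (κ := Fin (n + 1))
  obtain ⟨S, hS, h⟩ := Pool.Agent.Bc94b4.transfer (d := n + 4)
    (Fintype.equivFinOfCardEq (by simp)) Q hQ
  exact ⟨S, by rw [hS]; simp, h⟩

end Pool.Agent.Results.MP_bc94b4_co.StrictAntipodal
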