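import Pool.Agent.Lib.MP_bc94b4_co.Up.Final

/-!
For every `d ≥ 2`, a finite subset of `ℝ^d` in which every pair `x, y` has a direction maximised
over the set only at `x` and minimised only at `y` (the vertex set of a 0-antipodal polytope; in
particular every acute set) has at most `(1 - 10 ^ (-10) (d + 2) ^ (-30)) 2 ^ d` points.
-/

set_option autoImplicit false

namespace Pool.Agent.Results.MP_bc94b4_co.UpperBound

theorem result : ∀ d : ℕ, 2 ≤ d → ∀ S : Finset (EuclideanSpace ℝ (Fin d)),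
    (∀ x ∈ S, ∀ y ∈ S, x ≠ y →
      ∃ u : EuclideanSpace ℝ (Fin d), ∀ z ∈ S,
        (z ≠ x → inner ℝ u z < inner ℝ u x) ∧ (z ≠ y → inner ℝ u y < inner ℝ u z)) →
    (S.card : ℝ) ≤ (1 - 1 / (10 ^ 10 * ((d : ℝ) + 2) ^ 30)) * 2 ^ d := by
  intro d hd S hS
  refine Pool.Agent.Bc94b4.Up.upper finrank_euclideanSpace_fin hd S fun x hx y hy hxy => ?_
  obtain ⟨u, hu⟩ := hS x hx y hy hxy
  exact ⟨innerₛₗ ℝ u, hu⟩

end Pool.Agent.Results.MP_bc94b4_co.UpperBound
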